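import Pool.Agent.H24.RD.Targets

set_option autoImplicit false

/-!
# The coset inequality for integers
-/

namespace Pool.Agent.H50.RD

open Pool.Agent.H24.RD Finset Polynomial

theorem sum_le {M : Type} [Field M] (v : AbsoluteValue M ℝ) (hv : IsNonarchimedean v)
    {ι : Type} (s : Finset ι) (f : ι → M) (c : ℝ) (hc : 0 ≤ c) (h : ∀ i ∈ s, v (f i) ≤ c) :
    v (∑ i ∈ s, f i) ≤ c := by
  classical
  induction s using Finset.induction_on with
  | empty => simpa using hc
  | insert a s ha ih =>
    rw [Finset.sum_insert ha]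
    refine (hv _ _).trans (max_le (h a (Finset.mem_insert_self a s)) (ih ?_))
    intro i hi
    exact h i (Finset.mem_insert_of_mem hi)

theorem int_le {M : Type} [Field M] (v : AbsoluteValue M ℝ) (hv : IsNonarchimedean v) (n : ℤ) :
    v (n : M) ≤ 1 := by
  have hnat : ∀ m : ℕ, v (m : M) ≤ 1 := by
    intro m
    induction m with
    | zero => simp
    | succ m ih =>
      push_cast
      exact (hv _ _).trans (max_le ih (by simp))
  rcases Int.eq_nat_or_neg n with ⟨m, rfl | rfl⟩
  · simpa using hnat m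
  · simpa using hnat m

theorem integral_le {M : Type} [Field M] (v : AbsoluteValue M ℝ) (hv : IsNonarchimedean v) (x : M)
    (hx : IsIntegral ℤ x) : v x ≤ 1 := by
  by_contra hcon
  have hgt : 1 < v x := lt_of_not_ge hcon
  obtain ⟨p, hp, hpx⟩ := hx
  have h0 : (Polynomial.aeval x) p = 0 := hpx
  rw [hp.as_sum] at h0
  simp only [map_add, map_pow, map_sum, map_mul, aeval_X, eq_intCast, map_intCast] at h0
  have h1 : x ^ p.natDegree = - ∑ i ∈ range p.natDegree, ((p.coeff i : ℤ) : M) * x ^ i :=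
    eq_neg_of_add_eq_zero_left h0
  rcases Nat.eq_zero_or_pos p.natDegree with hz | hpos
  · rw [hz] at h1
    simp at h1
  · have h2 : v (x ^ p.natDegree) ≤ v x ^ (p.natDegree - 1) := by
      rw [h1, v.map_neg]
      refine sum_le v hv _ _ _ (by positivity) ?_
      intro i hi
      rw [map_mul, map_pow]
      have h3 : v x ^ i ≤ v x ^ (p.natDegree - 1) :=
        pow_le_pow_right₀ hgt.le (by have := Finset.mem_range.mp hi; omega)
      have h4 : 0 ≤ v x ^ i := by positivity
      have h5 := int_le v hv (p.coeff i)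
      nlinarith [v.nonneg ((p.coeff i : ℤ) : M)]
    rw [map_pow] at h2
    have h3 : v x ^ (p.natDegree - 1) < v x ^ p.natDegree :=
      pow_lt_pow_right₀ hgt (by omega)
    linarith

/-- the ring of `v`-integers. -/
def OO {M : Type} [Field M] (v : AbsoluteValue M ℝ) (hv : IsNonarchimedean v) : Subring M where
  carrier := {z | v z ≤ 1}
  mul_mem' := by
    intro a b ha hb
    simp only [Set.mem_ofPred_eq] at ha hb ⊢
    rw [map_mul]
    exact mul_le_one₀ ha (v.nonneg b) hb
  one_mem' := by simp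
  add_mem' := by
    intro a b ha hb
    exact (hv _ _).trans (max_le ha hb)
  zero_mem' := by simp
  neg_mem' := by
    intro a ha
    simp only [Set.mem_ofPred_eq] at ha ⊢
    rwa [v.map_neg]

theorem mem_OO {M : Type} [Field M] (v : AbsoluteValue M ℝ) (hv : IsNonarchimedean v) (z : M) :
    z ∈ OO v hv ↔ v z ≤ 1 := Iff.rfl

theorem lem_div {M : Type} [Field M] (v : AbsoluteValue M ℝ) (hv : IsNonarchimedean v)
    {ι : Type} [DecidableEq ι] (s : Finset ι) (a : ι → OO v hv) (ha : Set.InjOn a s) :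
    ∃ C : ℝ, 0 < C ∧ ∀ (Φ : Polynomial (OO v hv)) (ε : ℝ), 0 ≤ ε →
      (∀ i ∈ s, v ((Φ.eval (a i) : OO v hv) : M) ≤ ε) → ∀ z : OO v hv,
      v ((Φ.eval z : OO v hv) : M) ≤ max (∏ i ∈ s, v ((z : M) - (a i : M))) (C * ε) := by
  let c : ι → ℝ := fun i => ∏ j ∈ s.erase i, (v ((a i : M) - (a j : M)))⁻¹
  have hc : ∀ i, 0 ≤ c i := by
    intro i
    refine Finset.prod_nonneg ?_
    intro j _
    exact inv_nonneg.mpr (v.nonneg _)
  refine ⟨1 + ∑ i ∈ s, c i, ?_, ?_⟩
  · have : 0 ≤ ∑ i ∈ s, c i := Finset.sum_nonneg (fun i _ => hc i)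
    linarith
  intro Φ ε hε hΦ z
  let g : Polynomial (OO v hv) := ∏ i ∈ s, (X - C (a i))
  have hg : g.Monic := monic_prod_of_monic _ _ (fun i _ => monic_X_sub_C (a i))
  have hgd : g.natDegree = s.card := by
    rw [natDegree_prod_of_monic _ _ (fun i _ => monic_X_sub_C (a i))]
    simp
  have hsplit : Φ = Φ %ₘ g + g * (Φ /ₘ g) := (modByMonic_add_div Φ g).symm
  set R := Φ %ₘ g with hR
  set Q := Φ /ₘ g with hQ
  have hRdeg : R.degree < s.card := by
    have h1 := degree_modByMonic_lt Φ hg
    rw [Polynomial.degree_eq_natDegree hg.ne_zero, hgd] at h1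
    exact h1
  have hgz : ∀ w : (OO v hv), ((g.eval w : (OO v hv)) : M) = ∏ i ∈ s, ((w : M) - (a i : M)) := by
    intro w
    have : g.eval w = ∏ i ∈ s, (w - a i) := by
      simp only [g, eval_prod, eval_sub, eval_X, eval_C]
    rw [this]
    push_cast
    rfl
  have hga : ∀ i ∈ s, g.eval (a i) = 0 := by
    intro i hi
    simp only [g, eval_prod, eval_sub, eval_X, eval_C]
    exact Finset.prod_eq_zero hi (sub_self _)
  have hRa : ∀ i ∈ s, R.eval (a i) = Φ.eval (a i) := by
    intro i hi
    conv_rhs => rw [hsplit]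
    rw [eval_add, eval_mul, hga i hi, zero_mul, add_zero]
  -- the remainder in `M`
  let RM : Polynomial M := R.map (OO v hv).subtype
  have hRM : ∀ w : (OO v hv), RM.eval (w : M) = ((R.eval w : (OO v hv)) : M) := by
    intro w
    exact Polynomial.eval_map_apply ((OO v hv).subtype) w
  have hinj : Set.InjOn (fun i => (a i : M)) s := by
    intro i hi j hj hij
    exact ha hi hj (Subtype.ext hij)
  have hlag : RM = Lagrange.interpolate s (fun i => (a i : M)) (fun i => ((R.eval (a i) : (OO v hv)) : M)) := by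
    refine Lagrange.eq_interpolate_of_eval_eq _ hinj ?_ ?_
    · exact lt_of_le_of_lt (degree_map_le) hRdeg
    · intro i _
      exact hRM (a i)
  have hRz : v ((R.eval z : (OO v hv)) : M) ≤ (1 + ∑ i ∈ s, c i) * ε := by
    rw [← hRM z, hlag, Lagrange.interpolate_apply, eval_finsetSum]
    have hS : 0 ≤ ∑ i ∈ s, c i := Finset.sum_nonneg (fun i _ => hc i)
    refine sum_le v hv _ _ _ (by positivity) ?_
    intro i hi
    rw [eval_mul, eval_C, map_mul]
    have h1 : v ((R.eval (a i) : (OO v hv)) : M) ≤ ε := by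
      rw [hRa i hi]
      exact hΦ i hi
    have h2 : v (eval (z : M) (Lagrange.basis s (fun i => (a i : M)) i)) ≤ c i := by
      rw [Lagrange.basis, eval_prod, map_prod]
      refine Finset.prod_le_prod (fun j _ => v.nonneg _) ?_
      intro j _
      rw [Lagrange.basisDivisor, eval_mul, eval_C, eval_sub, eval_X, eval_C, map_mul, map_inv₀]
      have h3 : v ((z : M) - (a j : M)) ≤ 1 := ((OO v hv).sub_mem z.2 (a j).2)
      have h4 : 0 ≤ (v ((a i : M) - (a j : M)))⁻¹ := inv_nonneg.mpr (v.nonneg _)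
      nlinarith
    have h3 : c i ≤ 1 + ∑ i ∈ s, c i := by
      have := Finset.single_le_sum (f := c) (fun i _ => hc i) hi
      linarith
    calc v ((R.eval (a i) : (OO v hv)) : M) * v (eval (z : M) (Lagrange.basis s (fun i => (a i : M)) i))
        ≤ ε * (1 + ∑ i ∈ s, c i) := mul_le_mul h1 (h2.trans h3) (v.nonneg _) hε
      _ = (1 + ∑ i ∈ s, c i) * ε := mul_comm _ _
  have hΦz : ((Φ.eval z : (OO v hv)) : M) = ((R.eval z : (OO v hv)) : M) + ((g.eval z : (OO v hv)) : M) * ((Q.eval z : (OO v hv)) : M) := by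
    conv_lhs => rw [hsplit]
    rw [eval_add, eval_mul]
    push_cast
    rfl
  rw [hΦz]
  refine (hv _ _).trans (max_le ?_ ?_)
  · exact hRz.trans (le_max_right _ _)
  · refine le_trans ?_ (le_max_left _ _)
    rw [map_mul, hgz z, map_prod]
    have h1 : v ((Q.eval z : (OO v hv)) : M) ≤ 1 := (Q.eval z).2
    have h2 : 0 ≤ ∏ i ∈ s, v ((z : M) - (a i : M)) := Finset.prod_nonneg (fun i _ => v.nonneg _)
    nlinarith

open Classical in
theorem pf_ABS : T_ABS := by
  intro F M _ _ _ _ _ v hv x0 hgen y hy s hsy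
  have hx0 : v x0 ≤ 1 := integral_le v hv x0 hgen.int
  have hy1 : v y ≤ 1 := integral_le v hv y hy
  by_cases hex : ∃ t : M ≃ₐ[F] M, (∀ x, v (t x) = v x) ∧ t y = s y
  · obtain ⟨t0, ht0, ht0y⟩ := hex
    rw [← ht0y]
    -- the inverse is an isometry
    have ht0' : ∀ x, v (t0.symm x) = v x := by
      intro x
      rw [← ht0 (t0.symm x), AlgEquiv.apply_symm_apply]
    let H : Finset (M ≃ₐ[F] M) := univ.filter (fun t => (∀ x, v (t x) = v x) ∧ t y = y)
    have hint : ∀ h : M ≃ₐ[F] M, v (h x0) ≤ 1 := by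
      intro h
      refine integral_le v hv _ ?_
      exact hgen.int.map (h : M →ₐ[F] M).toRingHom.toIntAlgHom
    let a : (M ≃ₐ[F] M) → OO v hv := fun h => ⟨h x0, hint h⟩
    have hainj : Set.InjOn a H := by
      intro h _ h' _ hh
      have h1 : h x0 = h' x0 := congrArg Subtype.val hh
      have h2 : (h'⁻¹ * h) x0 = x0 := by
        rw [AlgEquiv.mul_apply, h1, ← AlgEquiv.mul_apply, inv_mul_cancel]
        rfl
      have h3 := hgen.sep _ h2
      exact (inv_mul_eq_one.mp h3).symm
    obtain ⟨C0, hC0, hmain⟩ := lem_div v hv H a hainj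
    let z : OO v hv := ⟨t0.symm x0, by rw [mem_OO, ht0']; exact hx0⟩
    have hkey : ∀ ε : ℝ, 0 < ε → v (t0.symm y - y) ≤
        max (∏ h ∈ H, v ((z : M) - (a h : M))) ((C0 + 1) * ε) := by
      intro ε hε
      obtain ⟨Y, hY⟩ := hgen.den y hy1 ε hε
      let Φ : Polynomial (OO v hv) := Y.map (Int.castRingHom (OO v hv)) - C ⟨y, hy1⟩
      have hΦe : ∀ w : OO v hv, ((Φ.eval w : OO v hv) : M) = aeval (w : M) Y - y := by
        intro w
        have h1 : Φ.eval w = aeval w Y - ⟨y, hy1⟩ := by
          simp only [Φ, eval_sub, eval_C, eval_map]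
          rfl
        rw [h1]
        have h2 : ((aeval w Y : OO v hv) : M) = aeval (w : M) Y := by
          exact (Polynomial.aeval_algHom_apply ((OO v hv).subtype.toIntAlgHom) w Y).symm
        push_cast
        rw [h2]
      have hH : ∀ h ∈ H, v ((Φ.eval (a h) : OO v hv) : M) ≤ ε := by
        intro h hh
        obtain ⟨_, hh1, hh2⟩ := Finset.mem_filter.mp hh
        rw [hΦe]
        have h3 : aeval (h x0) Y = h (aeval x0 Y) :=
          Polynomial.aeval_algHom_apply ((h : M →ₐ[F] M).toRingHom.toIntAlgHom) x0 Y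
        have h4 : ((a h : OO v hv) : M) = h x0 := rfl
        rw [h4, h3]
        have h5 : h (aeval x0 Y) - y = h (aeval x0 Y - y) := by
          rw [map_sub, hh2]
        rw [h5, hh1, v.map_sub]
        exact hY
      have h1 := hmain Φ ε hε.le hH z
      have h2 : t0.symm y - y = ((Φ.eval z : OO v hv) : M) + t0.symm (y - aeval x0 Y) := by
        rw [hΦe]
        have h3 : aeval (t0.symm x0) Y = t0.symm (aeval x0 Y) :=
          Polynomial.aeval_algHom_apply ((t0.symm : M →ₐ[F] M).toRingHom.toIntAlgHom) x0 Y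
        have h4 : ((z : OO v hv) : M) = t0.symm x0 := rfl
        rw [h4, h3, map_sub]
        ring
      rw [h2]
      refine (hv _ _).trans (max_le ?_ ?_)
      · refine h1.trans (max_le_max le_rfl ?_)
        nlinarith
      · rw [ht0']
        refine hY.trans (le_trans ?_ (le_max_right _ _))
        nlinarith
    have hlim : v (t0.symm y - y) ≤ ∏ h ∈ H, v ((z : M) - (a h : M)) := by
      by_contra hcon
      have hlt := lt_of_not_ge hcon
      have h0 : 0 ≤ ∏ h ∈ H, v ((z : M) - (a h : M)) := Finset.prod_nonneg (fun i _ => v.nonneg _)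
      have hpos : 0 < v (t0.symm y - y) := lt_of_le_of_lt h0 hlt
      have h1 := hkey (v (t0.symm y - y) / (2 * (C0 + 1))) (by positivity)
      have h2 : (C0 + 1) * (v (t0.symm y - y) / (2 * (C0 + 1))) = v (t0.symm y - y) / 2 := by
        field_simp
      rw [h2] at h1
      rcases le_max_iff.mp h1 with h3 | h3
      · exact hcon h3
      · linarith
    -- conclusion
    have hL : v (t0 y - y) = v (t0.symm y - y) := by
      rw [← ht0' (t0 y - y), map_sub, AlgEquiv.symm_apply_apply, v.map_sub]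
    rw [hL]
    refine hlim.trans (le_of_eq ?_)
    -- the product
    have hfil : ∏ t ∈ univ.filter (fun t : M ≃ₐ[F] M => t y = t0 y), v (t x0 - x0) =
        ∏ t ∈ univ.filter (fun t : M ≃ₐ[F] M => (∀ x, v (t x) = v x) ∧ t y = t0 y), v (t x0 - x0) := by
      symm
      refine Finset.prod_subset ?_ ?_
      · intro t ht
        obtain ⟨_, _, h2⟩ := Finset.mem_filter.mp ht
        exact Finset.mem_filter.mpr ⟨Finset.mem_univ _, h2⟩
      · intro t ht hnt
        obtain ⟨_, h2⟩ := Finset.mem_filter.mp ht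
        rcases hgen.dec t with h3 | h3
        · exact absurd (Finset.mem_filter.mpr ⟨Finset.mem_univ _, h3, h2⟩) hnt
        · exact h3
    rw [hfil]
    refine Finset.prod_bij' (fun h _ => t0 * h) (fun t _ => t0⁻¹ * t) ?_ ?_ ?_ ?_ ?_
    · intro h hh
      obtain ⟨_, hh1, hh2⟩ := Finset.mem_filter.mp hh
      refine Finset.mem_filter.mpr ⟨Finset.mem_univ _, ?_, ?_⟩
      · intro x
        rw [AlgEquiv.mul_apply, ht0, hh1]
      · rw [AlgEquiv.mul_apply, hh2]
    · intro t ht
      obtain ⟨_, ht1, ht2⟩ := Finset.mem_filter.mp ht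
      refine Finset.mem_filter.mpr ⟨Finset.mem_univ _, ?_, ?_⟩
      · intro x
        rw [AlgEquiv.mul_apply]
        exact (ht0' (t x)).trans (ht1 x)
      · rw [AlgEquiv.mul_apply, ht2]
        exact t0.symm_apply_apply y
    · intro h _
      simp
    · intro t _
      simp
    · intro h hh
      have h1 : t0.symm (t0 (h x0) - x0) = h x0 - t0.symm x0 := by
        rw [map_sub, AlgEquiv.symm_apply_apply]
      rw [AlgEquiv.mul_apply, ← ht0' (t0 (h x0) - x0), h1, v.map_sub]
  · have h1 : ∏ t ∈ univ.filter (fun t : M ≃ₐ[F] M => t y = s y), v (t x0 - x0) = 1 := by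
      refine Finset.prod_eq_one ?_
      intro t ht
      obtain ⟨_, h2⟩ := Finset.mem_filter.mp ht
      rcases hgen.dec t with h3 | h3
      · exact absurd ⟨t, h3, h2⟩ hex
      · exact h3
    rw [h1]
    have h2 : v (s y) ≤ 1 := by
      refine integral_le v hv _ ?_
      exact hy.map (s : M →ₐ[F] M).toRingHom.toIntAlgHom
    have h3 : s y - y ∈ OO v hv := (OO v hv).sub_mem h2 hy1
    exact h3

end Pool.Agent.H50.RD
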